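import Pool.Agent.helper91.SI.Spec

set_option autoImplicit false

namespace Pool.Agent.helper91.SI

open Pool.Agent.helper20.IG (IsIndepDom IsISet iGraph)

theorem LBD : LBD_stmt := by
  intro V _ G h3 S hS
  classical
  have h1 : (Finset.univ : Finset V) ⊆
      S.biUnion (fun s => insert s (Finset.univ.filter (fun x => G.Adj s x))) := by
    intro v _
    rw [Finset.mem_biUnion]
    by_cases hv : v ∈ S
    · exact ⟨v, hv, Finset.mem_insert_self _ _⟩
    · obtain ⟨u, hu, huv⟩ := hS.2 v hv
      exact ⟨u, hu, Finset.mem_insert_of_mem (Finset.mem_filter.2 ⟨Finset.mem_univ _, huv⟩)⟩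
  have h2 : ∀ s ∈ S, (insert s (Finset.univ.filter (fun x => G.Adj s x))).card ≤ 3 := by
    intro s _
    have h4 : (Finset.univ.filter (fun x => G.Adj s x)).card ≤ 2 := by
      by_contra hlt
      rw [not_le, Finset.two_lt_card] at hlt
      obtain ⟨a, ha, b, hb, c, hc, hab, hac, hbc⟩ := hlt
      exact h3 ⟨s, a, b, c, (Finset.mem_filter.1 ha).2, (Finset.mem_filter.1 hb).2,
        (Finset.mem_filter.1 hc).2, hab, hac, hbc⟩
    exact le_trans (Finset.card_insert_le _ _) (by omega)
  have h5 := Finset.card_le_card h1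
  have h6 := Finset.card_biUnion_le_card_mul S
    (fun s => insert s (Finset.univ.filter (fun x => G.Adj s x))) 3 h2
  rw [Finset.card_univ] at h5
  rw [mul_comm] at h6
  exact le_trans h5 h6

end Pool.Agent.helper91.SI
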